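import Pool.Agent.P8H58.Lgl

/-!
# Every block has the alternating sums of a block of a split extension of a self-centralising
elementary abelian group with few quotients
-/

set_option autoImplicit false
set_option linter.unusedSectionVars false

open scoped BigOperators Classical

noncomputable section

namespace Pool.Agent.P8H58.DS

open Pool.Agent.Y63.KR Pool.Agent.Q90.WR Pool.Agent.H254R3.IN Pool.Agent.Q259.BW
open Pool.Agent.Helper884 Pool.Agent.N19.RB Polynomial
open Pool.Agent.N22.DD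
open Pool.Agent.P8H58 Pool.Agent.P8H58.FR
open SemidirectProduct (inl inr)

section sd

variable {V H : Type} [CommGroup V] [Group H] (φ : H →* MulAut V)

/-- the normal subgroup -/
def An : Subgroup (V ⋊[φ] H) := (inl : V →* V ⋊[φ] H).range

instance : (An φ).Normal := by
  unfold An
  rw [SemidirectProduct.range_inl_eq_ker_rightHom]
  infer_instance

theorem conj_inl (m : V ⋊[φ] H) (v : V) : m * inl v * m⁻¹ = inl (φ m.right v) := by
  have e : m = inl m.left * inr m.right := (SemidirectProduct.inl_left_mul_inr_right m).symm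
  have h1 : (inr m.right * inl v * inr m.right⁻¹ : V ⋊[φ] H) = inl (φ m.right v) :=
    (SemidirectProduct.inl_aut m.right v).symm
  calc m * inl v * m⁻¹ = inl m.left * (inr m.right * inl v * inr m.right⁻¹) * inl m.left⁻¹ := by
        conv_lhs => rw [e]
        rw [mul_inv_rev, ← map_inv, ← map_inv]
        simp only [mul_assoc]
    _ = inl (m.left * φ m.right v * m.left⁻¹) := by rw [h1, ← map_mul, ← map_mul]
    _ = _ := by rw [mul_comm m.left, mul_assoc, mul_inv_cancel, mul_one]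

/-- the centralizer of `V` for a faithful action -/
theorem cen_An (hφ : ∀ h : H, (∀ v, φ h v = v) → h = 1) :
    Subgroup.centralizer (An φ : Set (V ⋊[φ] H)) = An φ := by
  ext m
  rw [Subgroup.mem_centralizer_iff]
  constructor
  · intro h
    have h1 : m.right = 1 := by
      refine hφ _ fun v => ?_
      have h2 := h (inl v) ⟨v, rfl⟩
      have h3 := conj_inl φ m v
      rw [← h2, mul_assoc, mul_inv_cancel, mul_one] at h3
      exact (SemidirectProduct.inl_injective h3).symm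
    refine ⟨m.left, ?_⟩
    have e : m = inl m.left * inr m.right := (SemidirectProduct.inl_left_mul_inr_right m).symm
    rw [h1, map_one, mul_one] at e
    exact e.symm
  · rintro ⟨v, rfl⟩ _ ⟨w, rfl⟩
    rw [← map_mul, ← map_mul, mul_comm]

theorem compl_An : (An φ).IsComplement' (inr : H →* V ⋊[φ] H).range := by
  refine Subgroup.isComplement'_of_disjoint_and_mul_eq_univ ?_ ?_
  · rw [Subgroup.disjoint_def]
    rintro _ ⟨v, rfl⟩ ⟨h, hh⟩
    have h1 : v = 1 := (congrArg SemidirectProduct.left hh).symm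
    rw [h1, map_one]
  · refine Set.eq_univ_of_forall fun m => ?_
    exact ⟨inl m.left, ⟨_, rfl⟩, inr m.right, ⟨_, rfl⟩,
      SemidirectProduct.inl_left_mul_inr_right m⟩

end sd

theorem dv_ne {H Y : Type} [Group H] [Fintype H] [CommGroup Y] {x : H} (hx : x ≠ 1) {a : Y}
    (ha : a ≠ 1) : dv x a ≠ 1 := by
  intro h
  apply ha
  have h1 : (df x a : H → Y) x = 1 := congrFun (congrArg Subtype.val h) _
  unfold df at h1
  rw [Pi.mul_apply, Pi.inv_apply, Pi.mulSingle_eq_same, Pi.mulSingle_eq_of_ne hx, inv_one,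
    one_mul] at h1
  exact h1

theorem sh_faithful {H Y : Type} [Group H] [Fintype H] [CommGroup Y] {x y : H} (hx : x ≠ 1)
    (hy : y ≠ 1) (hxy : x ≠ y) {a : Y} (ha : a ≠ 1) {γ : H} (h : ∀ v, sh H Y γ v = v) : γ = 1 := by
  by_contra hγ
  obtain ⟨w, hw, hwγ⟩ : ∃ w : H, w ≠ 1 ∧ γ ≠ w := by
    by_cases e : γ = x
    · exact ⟨y, hy, fun e' => hxy (e.symm.trans e')⟩
    · exact ⟨x, hx, e⟩
  have h1 : ((sh H Y γ (dv w a) : V H Y) : H → Y) γ = (dv w a : H → Y) γ :=
    congrArg (fun v : V H Y => (v : H → Y) γ) (h (dv w a))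
  rw [sh_apply, inv_mul_cancel] at h1
  change df w a 1 = df w a γ at h1
  unfold df at h1
  rw [Pi.mul_apply, Pi.mul_apply, Pi.inv_apply, Pi.inv_apply, Pi.mulSingle_eq_same,
    Pi.mulSingle_eq_of_ne hw.symm, Pi.mulSingle_eq_of_ne hγ, Pi.mulSingle_eq_of_ne hwγ, inv_one,
    mul_one, mul_one, inv_eq_one] at h1
  exact ha h1

variable {p : ℕ} [hp : Fact p.Prime]

/-- the groups: finite groups in `X` with few quotients which are split extensions of a self-centralising
elementary abelian normal `q`-subgroup -/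
def SG (X : ∀ (G : Type) [Group G], Prop) (S : Type) [Group S] (q : ℕ) (G : Type) [Group G] :
    Prop :=
  X G ∧ Finite G ∧ TopS S G ∧ ∃ A K : Subgroup G, A.Normal ∧ (∀ v ∈ A, v ^ q = 1) ∧
    Subgroup.centralizer (A : Set G) = A ∧ A.IsComplement' K

/-- a group with a self-centralising normal `q`-subgroup has no normal `p`-subgroup -/
theorem core_of_cen {G : Type} [Group G] {q : ℕ} (hq : q.Prime) (hqp : q ≠ p) {A : Subgroup G}
    (hA : A.Normal) (h1 : ∀ v ∈ A, v ^ q = 1)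
    (h2 : Subgroup.centralizer (A : Set G) = A) (P : Subgroup G) (hP : P.Normal)
    (hPp : IsPGroup p P) : P = ⊥ := by
  have key : ∀ x ∈ A, x ∈ P → x = 1 := by
    intro x hx hxP
    obtain ⟨k, hk⟩ := hPp ⟨x, hxP⟩
    have h3 : x ^ p ^ k = 1 := congrArg Subtype.val hk
    have h4 := Nat.dvd_gcd (orderOf_dvd_of_pow_eq_one (h1 x hx)) (orderOf_dvd_of_pow_eq_one h3)
    have h5 : Nat.gcd q (p ^ k) = 1 :=
      (Nat.Coprime.pow_right _ ((Nat.coprime_primes hq hp.out).2 hqp))
    rw [h5, Nat.dvd_one] at h4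
    exact orderOf_eq_one_iff.1 h4
  rw [Subgroup.eq_bot_iff_forall]
  intro g hg
  have h3 : g ∈ A := by
    rw [← h2, Subgroup.mem_centralizer_iff]
    intro v hv
    have h4 : v * g * v⁻¹ * g⁻¹ ∈ A := by
      rw [mul_assoc, mul_assoc]
      refine A.mul_mem hv ?_
      rw [← mul_assoc]
      exact hA.conj_mem _ (A.inv_mem hv) g
    have h5 : v * g * v⁻¹ * g⁻¹ ∈ P := P.mul_mem (hP.conj_mem g hg v) (P.inv_mem hg)
    have h6 := key _ h4 h5
    have h7 : v * g * v⁻¹ = g := mul_inv_eq_one.1 h6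
    exact mul_inv_eq_iff_eq_mul.1 h7
  exact key g h3 hg

variable {O : ValuationSubring ℂ}

/-- **the embedding** -/
theorem exists_top2 (hpO : (p : ℂ) ∈ O.nonunits) {X : ∀ (G : Type) [Group G], Prop} (hX : Ecl X)
    {S : Type} [Group S] [Finite S] [IsSimpleGroup S] {s t : S} (hst : s * t ≠ t * s) (hS : X S)
    {q : ℕ} (hq : q.Prime) (hqp : q ≠ p) (hqS : q ∣ Nat.card S)
    {G : Type} [Group G] [Fintype G] (hG : X G) {B : Set (G → ℂ)} (hB : GoodB O B) :
    ∃ (Γ : Type) (_ : Group Γ) (_ : Fintype Γ) (B' : Set (Γ → ℂ)), SG X S q Γ ∧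
      AdmB p O Γ B' ∧ Nat.card G < Nat.card Γ ∧ blkP p O B' = blkP p O B := by
  haveI : Fintype S := Fintype.ofFinite S
  haveI := Fact.mk hq
  obtain ⟨χ, a, ha⟩ := exists_chi q
  have hYc : Nat.card (Multiplicative (ZMod q)) = q := by
    rw [Nat.card_congr Multiplicative.toAdd, Nat.card_zmod]
  have hYX : X (Multiplicative (ZMod q)) := by
    obtain ⟨u, hu⟩ := exists_prime_orderOf_dvd_card' q hqS
    have h1 : X (Subgroup.zpowers u) := hX.sub S hS _
    refine hX.iso _ _ h1 ⟨mulEquivOfPrimeCardEq (p := q) ?_ hYc⟩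
    rw [Nat.card_zpowers, hu]
  have ha1 : a ≠ 1 := by
    rintro rfl
    exact ha (map_one _)
  have hs1 : s ≠ 1 := by rintro rfl; exact hst (by simp)
  have ht1 : t ≠ 1 := by rintro rfl; exact hst (by simp)
  have hst1 : s ≠ t := by rintro rfl; exact hst rfl
  have hS1 : 1 < Fintype.card S := Fintype.one_lt_card_iff.2 ⟨s, 1, hs1⟩
  -- the group with few quotients
  set k := 2 * Nat.card G with hk
  let H : Type := Fin (k + 1) → S
  have hH : 2 * Nat.card G < Nat.card H := by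
    have h1 : Nat.card H = Fintype.card S ^ (k + 1) := by
      rw [Nat.card_eq_fintype_card, Fintype.card_fun, Fintype.card_fin]
    rw [h1]
    have h2 := Nat.lt_pow_self hS1 (n := k + 1)
    omega
  have hx : (fun _ : Fin (k + 1) => s) ≠ 1 := fun h0 => hs1 (congrFun h0 0)
  have hy : (fun _ : Fin (k + 1) => t) ≠ 1 := fun h0 => ht1 (congrFun h0 0)
  have hxy : (fun _ : Fin (k + 1) => s) ≠ (fun _ => t) := fun h0 => hst1 (congrFun h0 0)
  let Γ₀ : Type := Gam H G Unit
  haveI : Fintype Γ₀ := Fintype.ofFinite _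
  have hT₀ : TopS S Γ₀ := topS_Gam hx hy hxy
  have hXU : X Unit := hX.emb (1 : Unit →* S) (fun _ _ _ => Subsingleton.elim _ _) hS
  have hX₀ : X Γ₀ := hX.Gam (hX.fin hS _) hG hXU
  obtain ⟨T, _, hT⟩ := Finset.exists_subset_card_eq (s := (Finset.univ : Finset H))
    (n := Nat.card G) (by
      rw [Finset.card_univ, ← Nat.card_eq_fintype_card]
      omega)
  obtain ⟨w, hw⟩ : T.Nonempty := by
    rw [← Finset.card_pos, hT]
    exact Nat.card_pos
  let ι : G →* Γ₀ := eT T hT
  have hι : Function.Injective ι := eT_inj hT hw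
  have hcG : Nat.card ι.range = Nat.card G :=
    (Nat.card_congr (MonoidHom.ofInjective hι).toEquiv).symm
  have hc₀ : 2 * Nat.card ι.range < Nat.card Γ₀ := by
    rw [hcG]
    exact hH.trans_le (Nat.card_le_card_of_injective _ (tp_inj (H := H) (G := G)))
  -- the semidirect product
  let Y : Type := Multiplicative (ZMod q)
  haveI : Fintype (V Γ₀ Y) := Fintype.ofFinite _
  let lam : V Γ₀ Y →* ℂˣ := lm ι.range χ
  have hlam : st (sh Γ₀ Y) lam = ι.range := st_lm hc₀ ha
  let e : st (sh Γ₀ Y) lam ≃* G :=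
    (MulEquiv.subgroupCongr hlam).trans (MonoidHom.ofInjective hι).symm
  have hB₁ : GoodB O (pull e B) := good_pull e hB
  obtain ⟨ψ₀, h0⟩ := hB₁.block.nonempty
  have hV : ¬ p ∣ Nat.card (V Γ₀ Y) := by
    intro h
    have h1 : Nat.card (V Γ₀ Y) ∣ Nat.card (Γ₀ → Y) := Subgroup.card_subgroup_dvd_card _
    rw [Nat.card_fun, hYc] at h1
    exact hqp ((Nat.prime_dvd_prime_iff_eq hp.out hq).1 (hp.out.dvd_of_dvd_pow (h.trans h1))).symm
  have hfr := blkP_fr hpO hV hB₁.block h0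
  have hgood := blk_good hpO hV hB₁ h0
  haveI : Finite (V Γ₀ Y ⋊[sh Γ₀ Y] Γ₀) := inferInstance
  have hx' : (⟨tp (fun _ => s), tp_mem _⟩ : Γ₀) ≠ 1 := fun h =>
    hx (tp_inj (H := H) (G := G) (h.trans (Subtype.ext (map_one SemidirectProduct.inr)).symm))
  have hy' : (⟨tp (fun _ => t), tp_mem _⟩ : Γ₀) ≠ 1 := fun h =>
    hy (tp_inj (H := H) (G := G) (h.trans (Subtype.ext (map_one SemidirectProduct.inr)).symm))
  have hxy' : (⟨tp (fun _ => s), tp_mem _⟩ : Γ₀) ≠ ⟨tp (fun _ => t), tp_mem _⟩ := fun h =>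
    hxy (tp_inj (H := H) (G := G) h)
  refine ⟨V Γ₀ Y ⋊[sh Γ₀ Y] Γ₀, inferInstance, Fintype.ofFinite _, blkOf O (ix lam ψ₀),
    ⟨hX.sd _ (hX.sub _ (hX.pi hYX Γ₀) _) hX₀, inferInstance, hT₀.sd hx' hy' hxy',
      An (sh Γ₀ Y), inr.range, inferInstance, ?_, cen_An _ fun h => sh_faithful hx' hy' hxy' ha1,
      compl_An _⟩, ⟨inferInstance, ?_, hgood.block, exists_def hpO hgood⟩, ?_, ?_⟩
  · rintro _ ⟨v, rfl⟩
    have h3 := V_pow v
    rw [hYc] at h3
    rw [← map_pow, h3, map_one]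
  · intro P hP hPp
    refine core_sd (p := p) ?_ hx' hy' hxy' ha1 P hP hPp
    rw [hYc]
    exact (Nat.coprime_primes hp.out hq).2 fun h => hqp h.symm
  · rw [SemidirectProduct.card, ← hcG]
    have h1 : 0 < Nat.card (V Γ₀ Y) := Nat.card_pos
    calc Nat.card ι.range < Nat.card Γ₀ := by omega
      _ ≤ Nat.card (V Γ₀ Y) * Nat.card Γ₀ := Nat.le_mul_of_pos_left _ h1
  · rw [← blkP_iso e B, ← hfr]

/-- the pairs -/
def PS (p : ℕ) (O : ValuationSubring ℂ) (X : ∀ (G : Type) [Group G], Prop) (S : Type) [Group S]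
    (q : ℕ) : Cl := fun G i B => @SG X S _ q G i ∧ @AdmB p O G i B

/-- **the transfer to large groups** -/
theorem to_PS (hpO : (p : ℂ) ∈ O.nonunits) {X : ∀ (G : Type) [Group G], Prop} (hX : Ecl X)
    {S : Type} [Group S] [Finite S] [IsSimpleGroup S] {s t : S} (hst : s * t ≠ t * s) (hS : X S)
    {q : ℕ} (hq : q.Prime) (hqp : q ≠ p) (hqS : q ∣ Nat.card S) (n : ℕ) :
    ∀ {G : Type} [Group G] [Finite G] (_ : X G) {B : Set (G → ℂ)} (_ : GoodB O B),
    ∃ (Γ : Type) (i : Group Γ) (B' : Set (Γ → ℂ)), PS p O X S q Γ i B' ∧ n < Nat.card Γ ∧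
      ∀ d, blkDef p O d B' = blkDef p O d B := by
  have step : ∀ {G : Type} [Group G] [Finite G] (_ : X G) {B : Set (G → ℂ)} (_ : GoodB O B),
      ∃ (Γ : Type) (i : Group Γ) (B' : Set (Γ → ℂ)), PS p O X S q Γ i B' ∧
        Nat.card G < Nat.card Γ ∧ ∀ d, blkDef p O d B' = blkDef p O d B := by
    intro G _ _ hG B hB
    have := Fintype.ofFinite G
    obtain ⟨Γ, i, f, B', h1, h2, h3, h4⟩ := exists_top2 (p := p) hpO hX hst hS hq hqp hqS hG hB
    refine ⟨Γ, i, B', ⟨h1, h2⟩, h3, fun d => ?_⟩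
    have h6 := blkP_coeff (p := p) (O := O) (B := B') d
    rw [h4, blkP_coeff] at h6
    exact_mod_cast h6.symm
  induction n with
  | zero =>
    intro G _ _ hG B hB
    obtain ⟨Γ, i, B', h1, h2, h3⟩ := step hG hB
    exact ⟨Γ, i, B', h1, by omega, h3⟩
  | succ n ih =>
    intro G _ _ hG B hB
    obtain ⟨Γ, i, B', h1, h2, h3⟩ := ih hG hB
    have := h1.2.fin
    obtain ⟨Γ', i', B'', g1, g2, g3⟩ := step h1.1.1 (h1.2.good hpO)
    exact ⟨Γ', i', B'', g1, by omega, fun d => (g3 d).trans (h3 d)⟩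

end Pool.Agent.P8H58.DS
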